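import Pool.Agent.Helper19.SDim.Spec
import Pool.Agent.Helper6.SDim.Basic

/-!
# AUX: the two auxiliary functions
-/

noncomputable section

open MeasureTheory Filter Set Metric
open scoped Topology ENNReal NNReal RealInnerProductSpace ContDiff Gradient

namespace Helper6.SDim.AuxFn

open Helper19.SDim Helper6.SDim

theorem aux_thm : S_AUX := by
  intro N p hN hp1 hp2
  have hN2 : (2 : ℝ) ≤ N := by exact_mod_cast hN
  have hp0 : 0 < p := by linarith
  have hNp : 0 < (N : ℝ) - p := by linarith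
  have hNp1 : 0 < (N : ℝ) - p + 1 := by linarith
  set τ : ℝ := N / (N - p + 1) with hτ
  have hτ1 : 1 < τ := by rw [hτ, lt_div_iff₀ hNp1]; linarith
  have hpτ : p - τ = (p - 1) * (N - p) / (N - p + 1) := by
    rw [hτ]; field_simp; ring
  have hτp : τ < p := by
    have : 0 < (p - 1) * (N - p) / (N - p + 1) := by
      apply div_pos (mul_pos (by linarith) hNp) hNp1
    linarith
  set β : ℝ := (τ - 1) / 2 with hβ
  set θ : ℝ := (1 - τ / p) / 2 with hθ
  have hβ0 : 0 < β := by rw [hβ]; linarith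
  have hβ1 : β < 1 / 2 := by rw [hβ]; linarith
  have hθ0 : 0 < θ := by
    have : τ / p < 1 := by rw [div_lt_one hp0]; exact hτp
    rw [hθ]; linarith
  have hθ1 : θ < 1 / 2 := by
    have : 0 < τ / p := by positivity
    rw [hθ]; linarith
  have hγ : gam N p = τ * (p - 1) := by
    rw [gam, hτ]; ring
  have hγ0 : 0 < gam N p := by rw [hγ]; exact mul_pos (by linarith) (by linarith)
  have hθp : 2 * θ * p = p - τ := by rw [hθ]; field_simp
  have hθpst : 2 * θ * pst N p = gam N p := by
    have h1 : 2 * θ * pst N p = (2 * θ * p) * (N / (N - p)) := by rw [pst]; ring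
    rw [h1, hθp, hpτ, gam]
    field_simp
  have hpst0 : 0 < pst N p := by
    rw [pst]; positivity
  have hθpγ : 2 * θ * p ≤ gam N p := by
    rw [hθp, hpτ, gam]
    rw [div_le_div_iff_of_pos_right hNp1]
    nlinarith
  set A : ℝ → ℝ := fun s => 1 + (max s 0) ^ 2 with hA
  have hA1 : ∀ s, 1 ≤ A s := fun s => by simp only [hA]; nlinarith [sq_nonneg (max s 0)]
  have hA0 : ∀ s, 0 < A s := fun s => lt_of_lt_of_le one_pos (hA1 s)
  have hAd : ∀ s, HasDerivAt A (2 * max s 0) s := fun s => (possq_hasDerivAt s).const_add 1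
  have hAc : ContDiff ℝ 1 A := contDiff_const.add possq_contDiff
  have hAs : ∀ s, 0 < s → A s = 1 + s ^ 2 := fun s hs => by simp only [hA]; rw [max_eq_left hs.le]
  set ψ : ℝ → ℝ := fun s => 1 - (A s) ^ (-β) with hψ
  set w : ℝ → ℝ := fun s => (A s) ^ θ - 1 with hw
  have hψd : ∀ s, deriv ψ s = 2 * β * (max s 0) * (A s) ^ (-β - 1) := by
    intro s
    have h1 : HasDerivAt ψ (-(2 * max s 0 * (-β) * (A s) ^ (-β - 1))) s :=
      ((hAd s).rpow_const (Or.inl (hA0 s).ne')).const_sub 1
    rw [h1.deriv]; ring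
  have hwd : ∀ s, deriv w s = 2 * θ * (max s 0) * (A s) ^ (θ - 1) := by
    intro s
    have h1 : HasDerivAt w (2 * max s 0 * θ * (A s) ^ (θ - 1)) s :=
      ((hAd s).rpow_const (Or.inl (hA0 s).ne')).sub_const 1
    rw [h1.deriv]; ring
  have hψc : ContDiff ℝ 1 ψ := contDiff_const.sub (hAc.rpow_const_of_ne fun s => (hA0 s).ne')
  have hwc : ContDiff ℝ 1 w := (hAc.rpow_const_of_ne fun s => (hA0 s).ne').sub contDiff_const
  -- constants
  set c1 : ℝ := (2 * θ) ^ p / (2 * β) with hc1
  set c2 : ℝ := β * ((β / 2) ^ ((p - 1) / p))⁻¹ with hc2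
  set c3 : ℝ := ((2 ^ (-β) * β) ^ ((p - 1) / p))⁻¹ with hc3
  have hc1p : 0 < c1 := by rw [hc1]; positivity
  have hc2p : 0 < c2 := by rw [hc2]; positivity
  have hc3p : 0 < c3 := by rw [hc3]; positivity
  set K : ℝ := 3 + c1 + c2 + c3 with hK
  have hK0 : 0 < K := by rw [hK]; positivity
  have hψd0 : ∀ s, 0 ≤ deriv ψ s := fun s => by
    rw [hψd]
    have := (Real.rpow_pos_of_pos (hA0 s) (-β - 1)).le
    positivity
  have hwd0 : ∀ s, 0 ≤ deriv w s := fun s => by
    rw [hwd]
    have := (Real.rpow_pos_of_pos (hA0 s) (θ - 1)).le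
    positivity
  have hAsq : ∀ s, max s 0 ≤ A s := fun s => by
    simp only [hA]
    nlinarith [sq_nonneg (max s 0 - 1), le_max_right s 0]
  have hAsqrt : ∀ s, max s 0 ≤ (A s) ^ (1 / 2 : ℝ) := fun s => by
    rw [← Real.sqrt_eq_rpow]
    apply Real.le_sqrt_of_sq_le
    simp only [hA]; linarith
  refine ⟨ψ, w, K, ⟨hK0, hψc, hwc, ?_, ?_, ?_, ?_, ?_, hψd0, ?_, hwd0, ?_, ?_, ?_, ?_, ?_⟩⟩
  · -- ψ_zero
    intro s hs
    simp only [hψ, hA]
    rw [max_eq_right hs]; norm_num
  · -- w_zero
    intro s hs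
    simp only [hw, hA]
    rw [max_eq_right hs]; norm_num
  · -- ψ_nonneg
    intro s
    simp only [hψ]
    have := Real.rpow_le_one_of_one_le_of_nonpos (hA1 s) (show -β ≤ 0 by linarith)
    linarith
  · -- ψ_le
    intro s
    simp only [hψ]
    have := (Real.rpow_pos_of_pos (hA0 s) (-β)).le
    linarith
  · -- w_nonneg
    intro s
    simp only [hw]
    have := Real.one_le_rpow (hA1 s) hθ0.le
    linarith
  · -- dψ_le
    intro s
    rw [hψd]
    have h1 : (A s) ^ (-β - 1) ≤ (A s) ^ (-1 : ℝ) :=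
      Real.rpow_le_rpow_of_exponent_le (hA1 s) (by linarith)
    have h2 : max s 0 * (A s) ^ (-1 : ℝ) ≤ 1 := by
      rw [Real.rpow_neg_one, mul_inv_le_iff₀ (hA0 s), one_mul]
      exact hAsq s
    have h3 : max s 0 * (A s) ^ (-β - 1) ≤ 1 :=
      le_trans (mul_le_mul_of_nonneg_left h1 (le_max_right _ _)) h2
    calc 2 * β * max s 0 * A s ^ (-β - 1) = (2 * β) * (max s 0 * A s ^ (-β - 1)) := by ring
      _ ≤ (2 * β) * 1 := by gcongr
      _ ≤ K := by rw [hK]; linarith
  · -- dw_le
    intro s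
    rw [hwd]
    have h1 : (A s) ^ (θ - 1) ≤ (A s) ^ (-(1 / 2) : ℝ) :=
      Real.rpow_le_rpow_of_exponent_le (hA1 s) (by linarith)
    have h2 : max s 0 * (A s) ^ (-(1 / 2) : ℝ) ≤ 1 := by
      rw [Real.rpow_neg (hA0 s).le, mul_inv_le_iff₀ (Real.rpow_pos_of_pos (hA0 s) _), one_mul]
      exact hAsqrt s
    have h3 : max s 0 * (A s) ^ (θ - 1) ≤ 1 :=
      le_trans (mul_le_mul_of_nonneg_left h1 (le_max_right _ _)) h2
    calc 2 * θ * max s 0 * A s ^ (θ - 1) = (2 * θ) * (max s 0 * A s ^ (θ - 1)) := by ring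
      _ ≤ (2 * θ) * 1 := by gcongr
      _ ≤ K := by rw [hK]; linarith
  · -- dw_pow
    intro s
    rw [hwd, hψd]
    rcases le_or_gt s 0 with hs | hs
    · rw [max_eq_right hs]
      simp [Real.zero_rpow hp0.ne']
    · rw [max_eq_left hs.le]
      have hAp := hA0 s
      have e1 : (2 * θ * s * A s ^ (θ - 1)) ^ p = (2 * θ) ^ p * (s ^ p * A s ^ (p * (θ - 1))) := by
        rw [Real.mul_rpow (by positivity) (by positivity), Real.mul_rpow (by positivity) hs.le,
          ← Real.rpow_mul hAp.le, mul_comm (θ - 1) p]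
        ring
      have e2 : s ^ p * A s ^ (p * (θ - 1)) =
          (s ^ (p - 1) * A s ^ (-((p - 1) / 2))) * (s * A s ^ (-β - 1)) := by
        have h1 : s ^ p = s ^ (p - 1) * s := by
          rw [← Real.rpow_add_one hs.ne']; ring_nf
        have h2 : A s ^ (p * (θ - 1)) = A s ^ (-((p - 1) / 2)) * A s ^ (-β - 1) := by
          rw [← Real.rpow_add hAp]
          congr 1
          have : p * θ = (p - τ) / 2 := by linarith
          rw [hβ]; linarith
        rw [h1, h2]; ring
      have e3 : s ^ (p - 1) * A s ^ (-((p - 1) / 2)) ≤ 1 := by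
        have h1 : s ^ (p - 1) ≤ (A s ^ (1 / 2 : ℝ)) ^ (p - 1) := by
          apply Real.rpow_le_rpow hs.le _ (by linarith)
          have := hAsqrt s
          rwa [max_eq_left hs.le] at this
        rw [← Real.rpow_mul hAp.le] at h1
        rw [Real.rpow_neg hAp.le, mul_inv_le_iff₀ (Real.rpow_pos_of_pos hAp _), one_mul]
        rw [show (p - 1) / 2 = 1 / 2 * (p - 1) by ring]
        exact h1
      rw [e1, e2]
      have h0 : 0 ≤ s * A s ^ (-β - 1) := by positivity
      calc (2 * θ) ^ p * ((s ^ (p - 1) * A s ^ (-((p - 1) / 2))) * (s * A s ^ (-β - 1)))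
          ≤ (2 * θ) ^ p * (1 * (s * A s ^ (-β - 1))) := by gcongr
        _ = c1 * (2 * β * s * A s ^ (-β - 1)) := by
            rw [hc1]; field_simp
        _ ≤ K * (2 * β * s * A s ^ (-β - 1)) := by
            gcongr
            rw [hK]; linarith
  · -- ψ_bound
    intro s hs
    have hAp := hA0 s
    have hq0 : 0 < (p - 1) / p := div_pos (by linarith) hp0
    have hq1 : (p - 1) / p ≤ 1 := by rw [div_le_one hp0]; linarith
    have hsg : 0 ≤ s ^ gam N p := Real.rpow_nonneg hs.le _
    rw [hψd, max_eq_left hs.le]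
    rcases le_total s 1 with hs1 | hs1
    · -- small s
      have hψle : ψ s ≤ β * s ^ 2 := by
        simp only [hψ]
        have hy1 : 1 ≤ (A s) ^ β := Real.one_le_rpow (hA1 s) hβ0.le
        have hy2 : (A s) ^ β ≤ 1 + β * s ^ 2 := by
          rw [hAs s hs]
          exact rpow_one_add_le_one_add_mul_self (by nlinarith [sq_nonneg s]) hβ0.le (by linarith)
        rw [Real.rpow_neg hAp.le]
        have hy0 : 0 < (A s) ^ β := by linarith
        have : 1 - ((A s) ^ β)⁻¹ = ((A s) ^ β - 1) / (A s) ^ β := by field_simp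
        rw [this, div_le_iff₀ hy0]
        nlinarith
      have hdlow : (β / 2) * s ≤ 2 * β * s * A s ^ (-β - 1) := by
        have h1 : (1 / 4 : ℝ) ≤ A s ^ (-β - 1) := by
          have hA2 : A s ≤ 2 := by rw [hAs s hs]; nlinarith
          have h2 : A s ^ (-2 : ℝ) ≤ A s ^ (-β - 1) :=
            Real.rpow_le_rpow_of_exponent_le (hA1 s) (by linarith)
          have h3 : (2 : ℝ) ^ (-2 : ℝ) ≤ A s ^ (-2 : ℝ) :=
            Real.rpow_le_rpow_of_nonpos hAp hA2 (by norm_num)
          have h4 : (2 : ℝ) ^ (-2 : ℝ) = 1 / 4 := by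
            rw [show (-2 : ℝ) = ((-2 : ℤ) : ℝ) by norm_num, Real.rpow_intCast]; norm_num
          rw [h4] at h3
          exact h3.trans h2
        nlinarith [mul_pos hβ0 hs]
      have h5 : (β / 2) ^ ((p - 1) / p) * s ≤ (2 * β * s * A s ^ (-β - 1)) ^ ((p - 1) / p) := by
        calc (β / 2) ^ ((p - 1) / p) * s ≤ (β / 2) ^ ((p - 1) / p) * s ^ ((p - 1) / p) := by
              gcongr
              calc s = s ^ (1 : ℝ) := (Real.rpow_one s).symm
                _ ≤ s ^ ((p - 1) / p) := Real.rpow_le_rpow_of_exponent_ge hs hs1 hq1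
          _ = ((β / 2) * s) ^ ((p - 1) / p) := (Real.mul_rpow (by positivity) hs.le).symm
          _ ≤ _ := Real.rpow_le_rpow (by positivity) hdlow hq0.le
      have h6 : 1 ≤ (1 + s ^ gam N p) ^ (1 / p) := Real.one_le_rpow (by linarith) (by positivity)
      have h7 : 0 < (β / 2) ^ ((p - 1) / p) := by positivity
      calc ψ s ≤ β * s ^ 2 := hψle
        _ ≤ β * s := mul_le_mul_of_nonneg_left (by nlinarith) hβ0.le
        _ = c2 * 1 * ((β / 2) ^ ((p - 1) / p) * s) := by
            rw [hc2]; field_simp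
        _ ≤ K * (1 + s ^ gam N p) ^ (1 / p) * (2 * β * s * A s ^ (-β - 1)) ^ ((p - 1) / p) := by
            gcongr
            rw [hK]; linarith
    · -- large s
      have hψle : ψ s ≤ 1 := by
        simp only [hψ]
        have := (Real.rpow_pos_of_pos hAp (-β)).le
        linarith
      have hdlow : (2 ^ (-β) * β) * s ^ (-τ) ≤ 2 * β * s * A s ^ (-β - 1) := by
        have hA2 : A s ≤ 2 * s ^ 2 := by rw [hAs s hs]; nlinarith
        have h1 : (2 * s ^ 2) ^ (-β - 1) ≤ A s ^ (-β - 1) :=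
          Real.rpow_le_rpow_of_nonpos hAp hA2 (by linarith)
        have h2 : (2 * s ^ 2 : ℝ) ^ (-β - 1) = (2 ^ (-β) / 2) * s ^ (-τ - 1) := by
          rw [Real.mul_rpow (by norm_num) (by positivity), Real.rpow_sub_one (by norm_num)]
          congr 1
          rw [← Real.rpow_natCast s 2, ← Real.rpow_mul hs.le]
          congr 1
          push_cast
          rw [hβ]; ring
        have h3 : s ^ (-τ - 1) * s = s ^ (-τ) := by
          rw [← Real.rpow_add_one hs.ne']; ring_nf
        rw [h2] at h1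
        calc (2 ^ (-β) * β) * s ^ (-τ) = 2 * β * s * (2 ^ (-β) / 2 * s ^ (-τ - 1)) := by
              rw [← h3]; ring
          _ ≤ _ := by gcongr
      have h5 : (2 ^ (-β) * β) ^ ((p - 1) / p) * s ^ (-(gam N p / p)) ≤
          (2 * β * s * A s ^ (-β - 1)) ^ ((p - 1) / p) := by
        calc (2 ^ (-β) * β) ^ ((p - 1) / p) * s ^ (-(gam N p / p))
            = (2 ^ (-β) * β) ^ ((p - 1) / p) * (s ^ (-τ)) ^ ((p - 1) / p) := by
              rw [← Real.rpow_mul hs.le]
              congr 2
              rw [hγ]; ring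
          _ = ((2 ^ (-β) * β) * s ^ (-τ)) ^ ((p - 1) / p) :=
              (Real.mul_rpow (by positivity) (by positivity)).symm
          _ ≤ _ := Real.rpow_le_rpow (by positivity) hdlow hq0.le
      have h6 : s ^ (gam N p / p) ≤ (1 + s ^ gam N p) ^ (1 / p) := by
        have : s ^ (gam N p / p) = (s ^ gam N p) ^ (1 / p) := by
          rw [← Real.rpow_mul hs.le]; congr 1; ring
        rw [this]
        exact Real.rpow_le_rpow hsg (by linarith) (by positivity)
      have h7 : 0 < (2 ^ (-β) * β : ℝ) ^ ((p - 1) / p) := by positivity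
      have h8 : s ^ (gam N p / p) * s ^ (-(gam N p / p)) = 1 := by
        rw [← Real.rpow_add hs]; simp
      calc ψ s ≤ 1 := hψle
        _ = c3 * s ^ (gam N p / p) * ((2 ^ (-β) * β) ^ ((p - 1) / p) * s ^ (-(gam N p / p))) := by
            calc (1 : ℝ) = (c3 * (2 ^ (-β) * β) ^ ((p - 1) / p)) *
                  (s ^ (gam N p / p) * s ^ (-(gam N p / p))) := by
                  rw [h8, hc3, inv_mul_cancel₀ h7.ne']; norm_num
              _ = _ := by ring
        _ ≤ K * (1 + s ^ gam N p) ^ (1 / p) * (2 * β * s * A s ^ (-β - 1)) ^ ((p - 1) / p) := by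
            gcongr
            rw [hK]; linarith
  · -- w_pow
    intro s hs
    have hAp := hA0 s
    have hsg : 0 ≤ s ^ gam N p := Real.rpow_nonneg hs.le _
    have hw0 : 0 ≤ w s := by
      simp only [hw]
      have := Real.one_le_rpow (hA1 s) hθ0.le
      linarith
    have hwle : w s ^ p ≤ (A s) ^ (θ * p) := by
      rw [Real.rpow_mul hAp.le]
      apply Real.rpow_le_rpow hw0 _ hp0.le
      simp only [hw]; linarith
    have hθp1 : θ * p ≤ 1 := by nlinarith
    have h2 : (2 : ℝ) ^ (θ * p) ≤ 2 := by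
      calc (2 : ℝ) ^ (θ * p) ≤ 2 ^ (1 : ℝ) := Real.rpow_le_rpow_of_exponent_le (by norm_num) hθp1
        _ = 2 := Real.rpow_one 2
    have hfin : w s ^ p ≤ 2 * (1 + s ^ gam N p) := by
      rcases le_total s 1 with hs1 | hs1
      · have hA2 : A s ≤ 2 := by rw [hAs s hs]; nlinarith
        calc w s ^ p ≤ (A s) ^ (θ * p) := hwle
          _ ≤ 2 ^ (θ * p) := Real.rpow_le_rpow hAp.le hA2 (by positivity)
          _ ≤ 2 := h2
          _ ≤ 2 * (1 + s ^ gam N p) := by linarith
      · have hA2 : A s ≤ 2 * s ^ 2 := by rw [hAs s hs]; nlinarith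
        calc w s ^ p ≤ (A s) ^ (θ * p) := hwle
          _ ≤ (2 * s ^ 2) ^ (θ * p) := Real.rpow_le_rpow hAp.le hA2 (by positivity)
          _ = 2 ^ (θ * p) * s ^ (2 * θ * p) := by
              rw [Real.mul_rpow (by norm_num) (by positivity)]
              congr 1
              rw [← Real.rpow_natCast s 2, ← Real.rpow_mul hs.le]
              congr 1
              push_cast; ring
          _ ≤ 2 * s ^ gam N p := by
              gcongr
          _ ≤ 2 * (1 + s ^ gam N p) := by linarith
    calc w s ^ p ≤ 2 * (1 + s ^ gam N p) := hfin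
      _ ≤ K * (1 + s ^ gam N p) := by
          gcongr
          rw [hK]; linarith
  · -- w_low
    intro ε hε
    set c : ℝ := 1 - (A ε) ^ (-θ) with hc
    have hc0 : 0 < c := by
      have hA1' : 1 < A ε := by rw [hAs ε hε]; nlinarith
      have := Real.rpow_lt_one_of_one_lt_of_neg hA1' (show -θ < 0 by linarith)
      rw [hc]; linarith
    refine ⟨(c ^ pst N p)⁻¹, by positivity, fun s hs => ?_⟩
    have hs0 : 0 < s := lt_of_lt_of_le hε hs
    have hAp := hA0 s
    have hlow : c * s ^ (2 * θ) ≤ w s := by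
      have h1 : c ≤ 1 - (A s) ^ (-θ) := by
        rw [hc]
        have : (A s) ^ (-θ) ≤ (A ε) ^ (-θ) := by
          apply Real.rpow_le_rpow_of_nonpos (hA0 ε) _ (by linarith)
          rw [hAs s hs0, hAs ε hε]
          nlinarith
        linarith
      have h2 : s ^ (2 * θ) ≤ (A s) ^ θ := by
        rw [Real.rpow_mul hs0.le]
        apply Real.rpow_le_rpow (by positivity) _ hθ0.le
        rw [hAs s hs0]
        have : s ^ (2 : ℝ) = s ^ 2 := by
          rw [show (2 : ℝ) = ((2 : ℕ) : ℝ) by norm_num, Real.rpow_natCast]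
        rw [this]; linarith
      calc c * s ^ (2 * θ) ≤ (1 - (A s) ^ (-θ)) * (A s) ^ θ := by
            apply mul_le_mul h1 h2 (by positivity) (le_trans hc0.le h1)
        _ = w s := by
            simp only [hw]
            rw [sub_mul, one_mul, ← Real.rpow_add hAp]
            simp
    have h3 : c ^ pst N p * s ^ gam N p ≤ (w s) ^ pst N p := by
      calc c ^ pst N p * s ^ gam N p = (c * s ^ (2 * θ)) ^ pst N p := by
            rw [Real.mul_rpow hc0.le (by positivity), ← Real.rpow_mul hs0.le, hθpst]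
        _ ≤ _ := Real.rpow_le_rpow (by positivity) hlow hpst0.le
    rw [← div_eq_inv_mul, le_div_iff₀ (by positivity), mul_comm]
    exact h3

end Helper6.SDim.AuxFn
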