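import Pool.Agent.Helper19.SDim.Spec

/-!
# DIV: integration by parts for a radial vector field
-/

noncomputable section

open MeasureTheory Filter Set Metric
open scoped Topology ENNReal NNReal RealInnerProductSpace ContDiff Gradient

namespace Helper6.SDim.DIV

open Helper19.SDim

theorem div_thm : S_DIV := by
  intro N M a φ hM hφ hc
  -- coordinates
  have hfd : ∀ i : Fin N, ∀ x : E N, HasFDerivAt (fun x : E N => M (‖x - a‖ ^ 2) * (x - a) i)
      (M (‖x - a‖ ^ 2) • (EuclideanSpace.proj i : E N →L[ℝ] ℝ) +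
        ((x - a) i) • (deriv M (‖x - a‖ ^ 2) • ((2 : ℝ) • innerSL ℝ (x - a)))) x := by
    intro i x
    have h1 : HasFDerivAt (fun x : E N => (x - a)) (ContinuousLinearMap.id ℝ (E N)) x :=
      (hasFDerivAt_id x).sub_const a
    have h2 : HasFDerivAt (fun x : E N => (x - a) i) (EuclideanSpace.proj i : E N →L[ℝ] ℝ) x := by
      have := (EuclideanSpace.proj i : E N →L[ℝ] ℝ).hasFDerivAt (x := x - a)
      have h := this.comp x h1
      rw [ContinuousLinearMap.comp_id] at h
      exact h
    have h3 : HasFDerivAt (fun x : E N => ‖x - a‖ ^ 2) ((2 : ℝ) • innerSL ℝ (x - a)) x := by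
      have h := (hasStrictFDerivAt_norm_sq (x - a)).hasFDerivAt.comp x h1
      have e : (2 • innerSL ℝ (x - a)).comp (ContinuousLinearMap.id ℝ (E N))
          = (2 : ℝ) • innerSL ℝ (x - a) := by
        ext v; simp [two_smul]
      rw [← e]
      exact h
    have h4 : HasFDerivAt (fun x : E N => M (‖x - a‖ ^ 2))
        (deriv M (‖x - a‖ ^ 2) • ((2 : ℝ) • innerSL ℝ (x - a))) x := by
      have hMd : HasDerivAt M (deriv M (‖x - a‖ ^ 2)) (‖x - a‖ ^ 2) :=
        (hM.differentiable one_ne_zero).differentiableAt.hasDerivAt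
      exact hMd.comp_hasFDerivAt x h3
    exact h4.mul h2
  have hcM : Continuous M := hM.continuous
  have hcM' : Continuous (deriv M) := hM.continuous_deriv le_rfl
  have hdφ : Differentiable ℝ φ := hφ.differentiable one_ne_zero
  have hcφ' : Continuous (fderiv ℝ φ) := hφ.continuous_fderiv one_ne_zero
  have hcf' : HasCompactSupport (fderiv ℝ φ) := hc.fderiv ℝ
  have hcoord : ∀ i : Fin N, Continuous (fun x : E N => (x - a) i) := fun i => by
    have : Continuous (fun x : E N => (EuclideanSpace.proj i : E N →L[ℝ] ℝ) (x - a)) := by fun_prop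
    exact this
  -- derivative in direction e_i
  have hval : ∀ i : Fin N, ∀ x : E N,
      fderiv ℝ (fun x : E N => M (‖x - a‖ ^ 2) * (x - a) i) x (EuclideanSpace.single i 1)
      = M (‖x - a‖ ^ 2) + 2 * (x - a) i ^ 2 * deriv M (‖x - a‖ ^ 2) := by
    intro i x
    rw [(hfd i x).fderiv]
    simp [EuclideanSpace.inner_single_right]
    ring
  -- one coordinate
  have hone : ∀ i : Fin N,
      ∫ x, (M (‖x - a‖ ^ 2) * (x - a) i) * fderiv ℝ φ x (EuclideanSpace.single i 1) =
      - ∫ x, (M (‖x - a‖ ^ 2) + 2 * (x - a) i ^ 2 * deriv M (‖x - a‖ ^ 2)) * φ x := by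
    intro i
    have hci := hcoord i
    have e1 := integral_mul_fderiv_eq_neg_fderiv_mul_of_integrable (μ := (volume : Measure (E N)))
      (f := fun x : E N => M (‖x - a‖ ^ 2) * (x - a) i) (g := φ)
      (v := (EuclideanSpace.single i 1 : E N)) ?_ ?_ ?_ ?_ ?_
    · rw [e1]
      congr 1
      refine integral_congr_ae (Eventually.of_forall fun x => ?_)
      simp only [hval]
    · simp only [hval]
      refine Continuous.integrable_of_hasCompactSupport ?_ hc.mul_left
      fun_prop
    · refine Continuous.integrable_of_hasCompactSupport ?_ ?_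
      · fun_prop
      · refine HasCompactSupport.mul_left ?_
        exact hcf'.comp_left (g := fun L : E N →L[ℝ] ℝ => L (EuclideanSpace.single i 1)) (by simp)
    · refine Continuous.integrable_of_hasCompactSupport ?_ hc.mul_left
      fun_prop
    · intro x _
      exact (hfd i x).differentiableAt
    · intro x _
      exact hdφ x
  -- sum up
  have hsum1 : ∀ x : E N, M (‖x - a‖ ^ 2) * ⟪x - a, ∇ φ x⟫ =
      ∑ i : Fin N, (M (‖x - a‖ ^ 2) * (x - a) i) * fderiv ℝ φ x (EuclideanSpace.single i 1) := by
    intro x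
    have h1 : ⟪x - a, ∇ φ x⟫ = fderiv ℝ φ x (x - a) := by
      rw [inner_gradient_right]; simp
    have h2 : (x - a) = ∑ i : Fin N, (x - a) i • (EuclideanSpace.single i 1 : E N) := by
      ext j
      simp [Pi.single_apply]
    rw [h1]
    conv_lhs => rw [h2]
    rw [map_sum, Finset.mul_sum]
    refine Finset.sum_congr rfl fun i _ => ?_
    rw [map_smul, smul_eq_mul, ← h2]
    ring
  have hsum2 : ∀ x : E N, (N * M (‖x - a‖ ^ 2) + 2 * ‖x - a‖ ^ 2 * deriv M (‖x - a‖ ^ 2)) * φ x =
      ∑ i : Fin N, (M (‖x - a‖ ^ 2) + 2 * (x - a) i ^ 2 * deriv M (‖x - a‖ ^ 2)) * φ x := by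
    intro x
    rw [← Finset.sum_mul, Finset.sum_add_distrib, ← Finset.sum_mul, ← Finset.mul_sum]
    have : ‖x - a‖ ^ 2 = ∑ i : Fin N, (x - a) i ^ 2 := by
      rw [EuclideanSpace.norm_sq_eq]
      simp
    rw [← this]
    simp
  simp_rw [hsum1, hsum2]
  rw [integral_finsetSum, integral_finsetSum]
  · rw [← Finset.sum_neg_distrib]
    refine Finset.sum_congr rfl fun i _ => ?_
    rw [hone i, neg_neg]
  · intro i _
    have hci := hcoord i
    refine Continuous.integrable_of_hasCompactSupport ?_ hc.mul_left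
    fun_prop
  · intro i _
    have hci := hcoord i
    refine Continuous.integrable_of_hasCompactSupport ?_ ?_
    · fun_prop
    · refine HasCompactSupport.mul_left ?_
      exact hcf'.comp_left (g := fun L : E N →L[ℝ] ℝ => L (EuclideanSpace.single i 1)) (by simp)

end Helper6.SDim.DIV
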