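import Pool.Agent.Helper19.SDim.Spec
import Pool.Agent.Helper6.SDim.Basic

/-!
# CUT: cut-off functions
-/

noncomputable section

open MeasureTheory Filter Set Metric
open scoped Topology ENNReal NNReal RealInnerProductSpace ContDiff Gradient

namespace Helper6.SDim.CUT

open Helper19.SDim Helper6.SDim

theorem cut_thm : S_CUT := by
  intro N x₀ r hr
  set q : ℝ → ℝ := fun s => (max s 0) ^ 2 with hq
  set t : E N → ℝ := fun x => ‖x - x₀‖ ^ 2 / r ^ 2 with ht
  have hr2 : 0 < r ^ 2 := by positivity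
  have htd : ∀ x : E N, HasFDerivAt t ((2 / r ^ 2 : ℝ) • innerSL ℝ (x - x₀)) x := by
    intro x
    have h1 : HasFDerivAt (fun x : E N => (x - x₀)) (ContinuousLinearMap.id ℝ (E N)) x :=
      (hasFDerivAt_id x).sub_const x₀
    have h := (hasStrictFDerivAt_norm_sq (x - x₀)).hasFDerivAt.comp x h1
    have h' := h.const_mul (1 / r ^ 2)
    have e : (1 / r ^ 2) • ((2 • innerSL ℝ (x - x₀)).comp (ContinuousLinearMap.id ℝ (E N)))
        = (2 / r ^ 2 : ℝ) • innerSL ℝ (x - x₀) := by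
      ext v; simp [two_smul]; ring
    rw [e] at h'
    refine h'.congr_of_eventuallyEq (Eventually.of_forall fun y => ?_)
    simp only [ht, Function.comp]
    ring
  have htc : ContDiff ℝ 1 t := by
    simp only [ht]
    exact ((contDiff_id.sub contDiff_const).norm_sq ℝ).div_const _
  have hηd : ∀ x : E N, HasFDerivAt (fun x => q (1 - q ((4 * t x - 1) / 3)))
      ((-(2 * max (1 - (max ((4 * t x - 1) / 3) 0) ^ 2) 0 * (2 * max ((4 * t x - 1) / 3) 0 * (4 / 3)) *
        (2 / r ^ 2)) : ℝ) • innerSL ℝ (x - x₀)) x := by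
    intro x
    have h1 : HasFDerivAt (fun x => (4 * t x - 1) / 3) ((4 / 3 * (2 / r ^ 2) : ℝ) • innerSL ℝ (x - x₀)) x := by
      have h := ((htd x).const_mul 4).sub_const 1 |>.mul_const (1 / 3)
      have e : (1 / 3 : ℝ) • ((4 : ℝ) • ((2 / r ^ 2 : ℝ) • innerSL ℝ (x - x₀)))
        = (4 / 3 * (2 / r ^ 2) : ℝ) • innerSL ℝ (x - x₀) := by
        rw [smul_smul, smul_smul]; congr 1; ring
      rw [e] at h
      refine h.congr_of_eventuallyEq (Eventually.of_forall fun y => ?_)
      simp only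
      ring
    have h2 := (possq_hasDerivAt ((4 * t x - 1) / 3)).comp_hasFDerivAt x h1
    have h3 := h2.const_sub 1
    have h4 := (possq_hasDerivAt (1 - (max ((4 * t x - 1) / 3) 0) ^ 2)).comp_hasFDerivAt x h3
    have e : (2 * max (1 - max ((4 * t x - 1) / 3) 0 ^ 2) 0) •
        -((2 * max ((4 * t x - 1) / 3) 0) • (4 / 3 * (2 / r ^ 2) : ℝ) • innerSL ℝ (x - x₀)) =
      ((-(2 * max (1 - (max ((4 * t x - 1) / 3) 0) ^ 2) 0 * (2 * max ((4 * t x - 1) / 3) 0 * (4 / 3)) *
        (2 / r ^ 2)) : ℝ) • innerSL ℝ (x - x₀)) := by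
      rw [smul_neg, ← neg_smul, smul_smul, smul_smul]; congr 1; ring
    rw [← e]
    exact h4
  have hgrad : ∀ x : E N, ‖∇ (fun x => q (1 - q ((4 * t x - 1) / 3))) x‖ =
      2 * max (1 - (max ((4 * t x - 1) / 3) 0) ^ 2) 0 * (2 * max ((4 * t x - 1) / 3) 0 * (4 / 3)) *
        (2 / r ^ 2) * ‖x - x₀‖ := by
    intro x
    have h1 : ‖∇ (fun x => q (1 - q ((4 * t x - 1) / 3))) x‖ =
        ‖fderiv ℝ (fun x => q (1 - q ((4 * t x - 1) / 3))) x‖ := by
      rw [gradient]; simp
    rw [h1, (hηd x).fderiv, norm_smul, innerSL_apply_norm, Real.norm_eq_abs, abs_neg, abs_of_nonneg]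
    positivity
  have hout : ∀ x, x ∉ ball x₀ r → max (1 - (max ((4 * t x - 1) / 3) 0) ^ 2) 0 = 0 := by
    intro x hx
    rw [mem_ball, not_lt, dist_eq_norm] at hx
    have h1 : 1 ≤ t x := by
      simp only [ht]
      rw [one_le_div hr2]
      exact pow_le_pow_left₀ hr.le hx 2
    have h2 : 1 ≤ max ((4 * t x - 1) / 3) 0 := le_max_of_le_left (by linarith)
    apply max_eq_right
    nlinarith
  refine ⟨fun x => q (1 - q ((4 * t x - 1) / 3)), ?_, ?_, ?_, ?_, ?_, ?_, ?_⟩
  · have h1 : ContDiff ℝ 1 (fun x => (4 * t x - 1) / 3) :=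
      ((contDiff_const.mul htc).sub contDiff_const).div_const _
    exact possq_contDiff.comp (contDiff_const.sub (possq_contDiff.comp h1))
  · intro x; simp only [hq]; positivity
  · intro x
    simp only [hq]
    have h1 : max (1 - (max ((4 * t x - 1) / 3) 0) ^ 2) 0 ≤ 1 := by
      apply max_le _ zero_le_one
      nlinarith [sq_nonneg (max ((4 * t x - 1) / 3) 0)]
    have h0 : 0 ≤ max (1 - (max ((4 * t x - 1) / 3) 0) ^ 2) 0 := le_max_right _ _
    nlinarith
  · intro x hx
    rw [mem_ball, dist_eq_norm] at hx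
    have h1 : t x ≤ 1 / 4 := by
      simp only [ht]
      rw [div_le_iff₀ hr2]
      have := pow_le_pow_left₀ (norm_nonneg _) hx.le 2
      nlinarith
    simp only [hq]
    rw [max_eq_right (show (4 * t x - 1) / 3 ≤ 0 by linarith)]
    norm_num
  · intro x hx
    simp only [hq]
    rw [hout x hx]
    norm_num
  · intro x hx
    rw [← norm_eq_zero, hgrad x, hout x hx]
    ring
  · intro x
    rw [hgrad x]
    by_cases hx : x ∈ ball x₀ r
    · rw [mem_ball, dist_eq_norm] at hx
      set m := max ((4 * t x - 1) / 3) 0 with hm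
      have hm0 : 0 ≤ m := le_max_right _ _
      have ht1 : t x ≤ 1 := by
        simp only [ht]
        rw [div_le_one hr2]
        exact pow_le_pow_left₀ (norm_nonneg _) hx.le 2
      have hm1 : m ≤ 1 := max_le (by linarith) zero_le_one
      have hk1 : max (1 - m ^ 2) 0 ≤ 1 := max_le (by nlinarith [sq_nonneg m]) zero_le_one
      have hk0 : 0 ≤ max (1 - m ^ 2) 0 := le_max_right _ _
      have hp : max (1 - m ^ 2) 0 * m ≤ 1 := by nlinarith
      have hp0 : 0 ≤ max (1 - m ^ 2) 0 * m := mul_nonneg hk0 hm0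
      calc 2 * max (1 - m ^ 2) 0 * (2 * m * (4 / 3)) * (2 / r ^ 2) * ‖x - x₀‖
          = (max (1 - m ^ 2) 0 * m) * (32 / 3) / r ^ 2 * ‖x - x₀‖ := by ring
        _ ≤ 1 * (32 / 3) / r ^ 2 * r := by gcongr
        _ = (32 / 3) / r := by field_simp
        _ ≤ 11 / r := by gcongr; norm_num
    · rw [hout x hx]
      have : 2 * 0 * (2 * max ((4 * t x - 1) / 3) 0 * (4 / 3)) * (2 / r ^ 2) * ‖x - x₀‖ = 0 := by ring
      rw [this]
      positivity

end Helper6.SDim.CUT
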